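import Pool.Agent.H81.LE.StmThree

/-!
# Project LE: list edge colourings and components
-/

namespace Pool.Agent.H6.LE

open Pool.Agent.H81.LE

theorem t_partsL : S_partsL := by
  intro V _ H L hP
  classical
  choose F hF1 hF2 using hP
  -- a representative of every component
  let rep : V → V := fun a => (Quot.out (H.connectedComponentMk a))
  have rep_reach : ∀ a, H.Reachable (rep a) a := by
    intro a
    have : H.connectedComponentMk (rep a) = H.connectedComponentMk a := Quot.out_eq _
    exact SimpleGraph.ConnectedComponent.exact this
  have rep_adj : ∀ a b, H.Adj a b → rep a = rep b := by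
    intro a b hab
    have : H.connectedComponentMk a = H.connectedComponentMk b :=
      SimpleGraph.ConnectedComponent.sound hab.reachable
    simp only [rep, this]
  let f : Sym2 V → ℕ := fun e => F (rep (Quot.out e).1) e
  have key : ∀ u v, H.Adj u v → f s(u, v) = F (rep u) s(u, v) := by
    intro u v huv
    have hout : s((Quot.out s(u, v)).1, (Quot.out s(u, v)).2) = s(u, v) := by
      exact Quot.out_eq s(u, v)
    have : rep (Quot.out s(u, v)).1 = rep u := by
      rcases Sym2.eq_iff.1 hout with ⟨h1, _⟩ | ⟨h1, _⟩
      · rw [h1]
      · rw [h1]; exact (rep_adj u v huv).symm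
    simp only [f]
    rw [this]
  refine ⟨f, ?_, ?_⟩
  · intro e he
    induction e using Sym2.ind with
    | _ u v =>
      have huv : H.Adj u v := he
      rw [key u v huv]
      apply hF1 (rep u) s(u, v)
      exact ⟨huv, rep_reach u⟩
  · intro u v w huv huw hvw
    rw [key u v huv, key u w huw]
    exact hF2 (rep u) u v w ⟨huv, rep_reach u⟩ ⟨huw, rep_reach u⟩ hvw

end Pool.Agent.H6.LE
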